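import Pool.Agent.W559.Wr.StmR

set_option autoImplicit false
set_option linter.unusedSectionVars false

open TensorProduct

universe u

namespace Pool.Agent.W382.Wr.Cyc

open Pool.Agent.W559.Wr Pool.Agent.W559.Et Pool.Agent.W559.Mg

section

variable {k K M : Type u} [Field k] [Field K] [Algebra k K] [Field M] [Algebra k M]

/-- The algebra homomorphism from the tensor power. -/
theorem exists_g {n : ℕ} (e : Fin n → K →ₐ[k] M) (he : LDis e) :
    ∃ g : (⨂[k] _ : Fin n, K) →ₐ[k] M,
      (∀ i x, g (PiTensorProduct.singleAlgHom (R := k) (A := fun _ : Fin n => K) i x) = e i x) ∧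
      Function.Injective g := by
  obtain ⟨g, hg⟩ := (H920R2.isCoprod_pi (k := k) (A := fun _ : Fin n => K)).lift M e
  refine ⟨g, hg, ?_⟩
  have hlin : g.toLinearMap = mulM e := by
    apply PiTensorProduct.ext
    ext x
    simp only [LinearMap.compMultilinearMap_apply, AlgHom.toLinearMap_apply]
    unfold mulM
    rw [PiTensorProduct.lift.tprod]
    have h1 : (PiTensorProduct.tprod k x : ⨂[k] _ : Fin n, K) =
        ∏ i, PiTensorProduct.singleAlgHom (R := k) (A := fun _ : Fin n => K) i (x i) := by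
      have h2 : ∏ i, PiTensorProduct.singleAlgHom (R := k) (A := fun _ : Fin n => K) i (x i) =
          ∏ i, (PiTensorProduct.tprod k (Pi.mulSingle i (x i)) : ⨂[k] _ : Fin n, K) := rfl
      rw [h2, ← PiTensorProduct.tprod_prod, Finset.univ_prod_mulSingle]
    rw [h1, map_prod]
    simp only [hg]
    change _ = MultilinearMap.mkPiAlgebra k (Fin n) M (fun i => e i (x i))
    rw [MultilinearMap.mkPiAlgebra_apply]
  have h2 : Function.Injective g.toLinearMap := by
    rw [hlin]
    exact he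
  exact h2

/-- The fractions. -/
theorem exists_frac {n : ℕ} (e : Fin n → K →ₐ[k] M) (htop : ⨆ i, (e i).fieldRange = ⊤)
    (g : (⨂[k] _ : Fin n, K) →ₐ[k] M)
    (hg : ∀ i x, g (PiTensorProduct.singleAlgHom (R := k) (A := fun _ : Fin n => K) i x) = e i x)
    (x : M) : ∃ a b, g b ≠ 0 ∧ x = g a / g b := by
  have h1 : x ∈ IntermediateField.adjoin k (⋃ i, Set.range (e i)) := by
    have h2 : (⨆ i, (e i).fieldRange) ≤ IntermediateField.adjoin k (⋃ i, Set.range (e i)) := by
      refine iSup_le fun i => ?_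
      rintro _ ⟨y, rfl⟩
      exact IntermediateField.subset_adjoin _ _ (Set.mem_iUnion.2 ⟨i, ⟨y, rfl⟩⟩)
    rw [htop] at h2
    exact h2 IntermediateField.mem_top
  rw [IntermediateField.mem_adjoin_iff_div] at h1
  obtain ⟨r, hr, s, hs, rfl⟩ := h1
  have h3 : Algebra.adjoin k (⋃ i, Set.range (e i)) ≤ g.range := by
    rw [Algebra.adjoin_le_iff]
    intro y hy
    obtain ⟨i, y, rfl⟩ := Set.mem_iUnion.1 hy
    exact ⟨_, hg i y⟩
  obtain ⟨a, rfl⟩ := h3 hr
  obtain ⟨b, rfl⟩ := h3 hs
  by_cases hb : g b = 0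
  · refine ⟨0, 1, ?_, ?_⟩
    · rw [map_one]; exact one_ne_zero
    · change g a / g b = _
      rw [hb, map_zero, div_zero, zero_div]
  · exact ⟨a, b, hb, rfl⟩

/-- Automorphisms which agree on the copies are equal. -/
theorem aut_ext {ι : Type} (e : ι → K →ₐ[k] M) (htop : ⨆ i, (e i).fieldRange = ⊤)
    (σ τ : M ≃ₐ[k] M) (h : ∀ i x, σ (e i x) = τ (e i x)) (x : M) : σ x = τ x := by
  have h1 : (⨆ i, (e i).fieldRange) ≤
      IntermediateField.fixedField (Subgroup.zpowers (τ⁻¹ * σ)) := by
    refine iSup_le fun i => ?_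
    rintro _ ⟨y, rfl⟩
    rw [IntermediateField.mem_fixedField_iff]
    intro f hf
    obtain ⟨j, rfl⟩ := Subgroup.mem_zpowers_iff.1 hf
    have h2 : (τ⁻¹ * σ) • (e i y) = e i y := by
      rw [AlgEquiv.smul_def, AlgEquiv.mul_apply, h, ← AlgEquiv.mul_apply, inv_mul_cancel]
      rfl
    have h3 : (τ⁻¹ * σ) ^ j • (e i y) = e i y := by
      have h4 : (τ⁻¹ * σ) ∈ MulAction.stabilizer (M ≃ₐ[k] M) (e i y) := h2
      exact Subgroup.zpow_mem _ h4 j
    exact h3
  rw [htop] at h1
  have h2 := h1 (IntermediateField.mem_top (x := x))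
  rw [IntermediateField.mem_fixedField_iff] at h2
  have h3 := h2 _ (Subgroup.mem_zpowers _)
  have h4 : τ ((τ⁻¹ * σ) x) = τ x := congrArg τ h3
  rw [← AlgEquiv.mul_apply, mul_inv_cancel_left] at h4
  exact h4

end

theorem x (hlift : LiftStm.{u}) (hpow : PowRStm.{u}) (hmb : MbStm.{u}) (hmain : MainStm.{u})
    (hgrp : GrpStm.{u}) : CycRStm.{u} := by
  intro k _ p m hp hpk hm hζ n π hπ K M _ _ _ _ e he htop A hA
  obtain ⟨l, z, hz, hsm, hgen⟩ := hA
  obtain ⟨σ, hσ⟩ := hlift k K M (Fin n) e he htop π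
  obtain ⟨g, hg, hginj⟩ := exists_g e he
  have hfr := exists_frac e htop g hg
  have hpw' : ∀ (r : ℕ) i x, (σ ^ r) (e i x) = e ((π ^ r) i) x := by
    intro r
    induction r with
    | zero => intro i x; rfl
    | succ r ih =>
      intro i x
      rw [pow_succ, pow_succ]
      change (σ ^ r) (σ (e i x)) = _
      rw [hσ, ih]
      rfl
  have hN : ∀ x, (σ : M →ₐ[k] M)^[p * p * m] x = x := by
    intro x
    have h1 := aut_ext e htop (σ ^ (p * p * m)) 1 (by
      intro i y
      rw [hpw', hπ]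
      rfl) x
    have h2 : (⇑(σ : M →ₐ[k] M))^[p * p * m] x = (σ ^ (p * p * m)) x := by
      have h3 : ∀ r : ℕ, ∀ y, (⇑(σ : M →ₐ[k] M))^[r] y = (σ ^ r) y := by
        intro r
        induction r with
        | zero => intro y; rfl
        | succ r ih =>
          intro y
          rw [Function.iterate_succ_apply, ih, pow_succ]
          rfl
      exact h3 _ x
    rw [h2, h1]
    rfl
  obtain ⟨γ, h, M', ω, a, b, c, hGD, hγ, -, hh, hfix, -⟩ := hgrp k M (σ : M →ₐ[k] M) p m hp hpk
    hm hζ hN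
  have hpw : ∀ (r : ℕ) i x, ((σ : M →ₐ[k] M) ^ r) (e i x) = e ((π ^ r) i) x := by
    intro r
    induction r with
    | zero => intro i x; rfl
    | succ r ih =>
      intro i x
      rw [pow_succ, pow_succ]
      change ((σ : M →ₐ[k] M) ^ r) (σ (e i x)) = _
      rw [hσ, ih]
      rfl
  have hKf : ∀ x, x ∈ IntermediateField.fixedField (permGrp e (Subgroup.zpowers π)) ↔
      γ x = x ∧ h x = x := by
    intro x
    rw [hfix, IntermediateField.mem_fixedField_iff]
    constructor
    · intro h1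
      exact h1 σ ⟨π, Subgroup.mem_zpowers π, hσ⟩
    · intro h1 f hf
      obtain ⟨g', hg', hf'⟩ := hf
      obtain ⟨j, rfl⟩ := Subgroup.mem_zpowers_iff.1 hg'
      have hzp : ∀ i y, (σ ^ j) (e i y) = e ((π ^ j) i) y := by
        intro i y
        obtain ⟨r, hr | hr⟩ := Int.eq_nat_or_neg j
        · subst hr
          rw [zpow_natCast, zpow_natCast, hpw']
        · subst hr
          rw [zpow_neg, zpow_neg, zpow_natCast, zpow_natCast]
          apply (σ ^ r).injective
          rw [← AlgEquiv.mul_apply, mul_inv_cancel, hpw', ← Equiv.Perm.mul_apply, mul_inv_cancel]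
          rfl
      have h2 : f x = (σ ^ j) x := aut_ext e htop f (σ ^ j) (by
        intro i y
        rw [hf', hzp]) x
      rw [h2]
      have h4 : σ ∈ MulAction.stabilizer (M ≃ₐ[k] M) x := h1
      exact Subgroup.zpow_mem _ h4 j
  obtain ⟨N, W, hW, hWA, B, H, hAA, hsmB, hLL, hLL'⟩ := hpow k K M l n z A hz hsm hgen e g hg
    hginj hfr γ h (π ^ (m * a)) (π ^ b) (by intro i x; rw [hγ, hpw]) (by intro i x; rw [hh, hpw])
    p M' ω hGD (IntermediateField.fixedField (permGrp e (Subgroup.zpowers π))) hKf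
    ((⨆ i, A.map (e i)) ⊓
      (IntermediateField.fixedField (permGrp e (Subgroup.zpowers π))).toSubalgebra)
    (fun x => Algebra.mem_inf)
  obtain ⟨T', hT', E', C', H', hMB⟩ := hmain k M γ h p M' ω hGD _ _ _ W _ B H hAA hsmB hLL hLL'
  have hfin := hmb k M _ _ W hW _ (fun x hx => (Algebra.mem_inf.1 hx).2) hWA T' E' C' H' hMB
  have heq : ((⨆ i, A.map (e i)) ⊓
      (IntermediateField.fixedField (permGrp e (Subgroup.zpowers π))).toSubalgebra).comap
        (IntermediateField.fixedField (permGrp e (Subgroup.zpowers π))).val =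
      (⨆ i, A.map (e i)).comap
        (IntermediateField.fixedField (permGrp e (Subgroup.zpowers π))).val := by
    ext y
    constructor
    · intro hy
      exact (Algebra.mem_inf.1 hy).1
    · intro hy
      exact Algebra.mem_inf.2 ⟨hy, y.2⟩
  rw [heq] at hfin
  exact hfin

end Pool.Agent.W382.Wr.Cyc
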